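import Mathlib
import Pool.Agent.K3h17.Stm

/-!
IGP brick D0 (owner helper17): `t_der : Pool.Agent.K3h17.St_der`.
-/

set_option autoImplicit false

namespace Pool.Agent.K3h79.IGP

open Polynomial Pool.Agent.K3h17 TensorProduct

theorem const_aux {K Ω : Type*} [Field K] [CharZero K] [Field Ω] [Algebra K Ω]
    (δ : Derivation K Ω Ω) (x z : Ω) (hx : δ x = 1) (hz : δ z = 0) (N : ℕ) :
    ∀ (n : ℕ) (f : ℕ → K[X]), (∃ i < N, f i ≠ 0) → (∀ i < N, (f i).natDegree ≤ n) →
      ∑ i ∈ Finset.range N, aeval x (f i) * z ^ i = 0 → IsAlgebraic K z := by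
  have key : ∀ f : ℕ → K[X], (∃ i < N, f i ≠ 0) → (∀ i < N, (f i).natDegree = 0) →
      ∑ i ∈ Finset.range N, aeval x (f i) * z ^ i = 0 → IsAlgebraic K z := by
    intro f hf hd hs
    obtain ⟨i, hi, hne⟩ := hf
    refine ⟨∑ i ∈ Finset.range N, C ((f i).coeff 0) * X ^ i, ?_, ?_⟩
    · intro h0
      have := congrArg (fun p => Polynomial.coeff p i) h0
      simp only [finsetSum_coeff, coeff_C_mul, coeff_X_pow, coeff_zero] at this
      rw [Finset.sum_eq_single i] at this
      · simp only [if_true, mul_one] at this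
        exact hne (by rw [eq_C_of_natDegree_eq_zero (hd i hi), this, map_zero])
      · intro b _ hb
        rw [if_neg (Ne.symm hb), mul_zero]
      · intro h
        exact absurd (Finset.mem_range.2 hi) h
    · rw [← hs, map_sum]
      refine Finset.sum_congr rfl fun i hi => ?_
      rw [map_mul, map_pow, aeval_X, aeval_C]
      conv_rhs => rw [eq_C_of_natDegree_eq_zero (hd i (Finset.mem_range.1 hi)), aeval_C]
  intro n
  induction n with
  | zero =>
    intro f hf hd hs
    exact key f hf (fun i hi => Nat.le_zero.1 (hd i hi)) hs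
  | succ n ih =>
    intro f hf hd hs
    by_cases h : ∃ i < N, derivative (f i) ≠ 0
    · refine ih (fun i => derivative (f i)) h (fun i hi => ?_) ?_
      · have := natDegree_derivative_le (f i)
        have := hd i hi
        omega
      · have := congrArg δ hs
        rw [map_sum, map_zero] at this
        rw [← this]
        refine Finset.sum_congr rfl fun i hi => ?_
        rw [Derivation.leibniz, Derivation.leibniz_pow, hz]
        simp only [Derivation.map_aeval, hx, smul_eq_mul, mul_one]
        ring
    · push Not at h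
      exact key f hf (fun i hi => derivative_eq_zero.1 (h i hi)) hs

theorem t_der : Pool.Agent.K3h17.St_der := by
  intro K Ω _ _ _ _ _ _ _ _
  let alg : Algebra K[X] Ω :=
    ((algebraMap (RatFunc K) Ω).comp (algebraMap K[X] (RatFunc K))).toAlgebra
  have tow : IsScalarTower K[X] (RatFunc K) Ω := IsScalarTower.of_algebraMap_eq' rfl
  have tow2 : IsScalarTower K K[X] Ω := by
    refine IsScalarTower.of_algebraMap_eq' ?_
    rw [IsScalarTower.algebraMap_eq K (RatFunc K) Ω, IsScalarTower.algebraMap_eq K[X] (RatFunc K) Ω,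
      RingHom.comp_assoc, ← IsScalarTower.algebraMap_eq K K[X] (RatFunc K)]
  have e1 : Algebra.FormallyEtale K[X] (RatFunc K) :=
    Algebra.FormallyEtale.of_isLocalization (nonZeroDivisors K[X])
  have e2 : Algebra.FormallyEtale (RatFunc K) Ω := Algebra.FormallyEtale.of_isSeparable _ _
  have e3 : Algebra.FormallyEtale K[X] Ω := Algebra.FormallyEtale.comp K[X] (RatFunc K) Ω
  have hxx : xx K Ω = algebraMap K[X] Ω X := by
    rw [IsScalarTower.algebraMap_apply K[X] (RatFunc K) Ω, RatFunc.algebraMap_X]
    rfl
  have haev : ∀ f : K[X], algebraMap K[X] Ω f = aeval (xx K Ω) f := by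
    intro f
    rw [hxx, aeval_algebraMap_apply, aeval_X_left_apply]
  -- the derivation
  let L : Ω ⊗[K[X]] Ω[K[X]⁄K] →ₗ[Ω] Ω :=
    LinearMap.liftBaseChange Ω (Derivation.liftKaehlerDifferential (mkDerivation K (1 : Ω)))
  let δ : Derivation K Ω Ω :=
    (L ∘ₗ (KaehlerDifferential.tensorKaehlerEquivOfFormallyEtale K K[X] Ω).symm.toLinearMap).compDer
      (KaehlerDifferential.D K Ω)
  have hδx : δ (xx K Ω) = 1 := by
    show L ((KaehlerDifferential.tensorKaehlerEquivOfFormallyEtale K K[X] Ω).symm
      (KaehlerDifferential.D K Ω (xx K Ω))) = 1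
    rw [hxx, KaehlerDifferential.tensorKaehlerEquivOfFormallyEtale_symm_D_algebraMap]
    simp [L]
  -- uniqueness
  have huniq : ∀ D : Derivation K Ω Ω, D (xx K Ω) = 0 → D = 0 := by
    intro D hD
    have e4 : Algebra.FormallyUnramified K[X] Ω := inferInstance
    let D' : Derivation K[X] Ω Ω :=
      { toFun := D
        map_add' := map_add D
        map_smul' := fun f z => by
          rw [Algebra.smul_def, Derivation.leibniz, haev, Derivation.map_aeval, hD, smul_zero,
            smul_zero, add_zero, smul_eq_mul, RingHom.id_apply, Algebra.smul_def, haev]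
        map_one_eq_zero' := D.map_one_eq_zero
        leibniz' := D.leibniz }
    have h0 : D' = 0 := by
      rw [← Derivation.liftKaehlerDifferential_comp D']
      have : Subsingleton (Ω[Ω⁄K[X]]) := inferInstance
      ext z
      show D'.liftKaehlerDifferential (KaehlerDifferential.D K[X] Ω z) = 0
      rw [Subsingleton.elim (KaehlerDifferential.D K[X] Ω z) 0, map_zero]
    ext z
    exact DFunLike.congr_fun h0 z
  refine ⟨δ, hδx, fun γ z => ?_, fun z hz => ?_⟩
  · let γK : Ω ≃ₐ[K] Ω := γ.restrictScalars K
    let D1 : Derivation K Ω Ω :=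
      Derivation.mk' ((γK.symm.toLinearMap ∘ₗ (δ : Ω →ₗ[K] Ω)) ∘ₗ γK.toLinearMap) (fun a b => by
        simp only [LinearMap.comp_apply, AlgEquiv.toLinearMap_apply, Derivation.coeFn_coe,
          map_mul, Derivation.leibniz, smul_eq_mul, map_add]
        simp)
    have hD1 : ∀ z, D1 z = γK.symm (δ (γK z)) := fun z => rfl
    have := huniq (D1 - δ) (by
      rw [Derivation.sub_apply, hδx, hD1]
      have : γK (xx K Ω) = xx K Ω := γ.commutes _
      rw [this, hδx, map_one, sub_self])
    have h2 := DFunLike.congr_fun this z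
    rw [Derivation.sub_apply, hD1, Derivation.zero_apply, sub_eq_zero] at h2
    have h3 := congrArg γK h2
    rw [AlgEquiv.apply_symm_apply] at h3
    exact h3
  · have halg : IsAlgebraic K[X] z := by
      have : IsAlgebraic (RatFunc K) z := Algebra.IsAlgebraic.isAlgebraic z
      exact (IsFractionRing.isAlgebraic_iff K[X] (RatFunc K) Ω).2 this
    obtain ⟨P, hP, hPz⟩ := halg
    refine const_aux δ (xx K Ω) z hδx hz (P.natDegree + 1)
      ((Finset.range (P.natDegree + 1)).sup fun i => (P.coeff i).natDegree) (fun i => P.coeff i)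
      ⟨P.natDegree, by omega, ?_⟩ (fun i hi => ?_) ?_
    · simpa using hP
    · exact Finset.le_sup (f := fun i => (P.coeff i).natDegree) (Finset.mem_range.2 hi)
    · rw [← hPz, aeval_eq_sum_range]
      refine Finset.sum_congr rfl fun i _ => ?_
      rw [Algebra.smul_def, haev]

end Pool.Agent.K3h79.IGP
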