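import Mathlib
import Pool.Agent.K3h17.Stm

/-!
IGP brick T (owner helper17): `t_lift : Pool.Agent.K3h17.St_lift`.
-/

set_option autoImplicit false

namespace Pool.Agent.K3h79.IGP

open PowerSeries Finset

theorem iter_mul {Ω : Type*} [Field Ω] (δ : Derivation ℤ Ω Ω) (n : ℕ) (a b : Ω) :
    δ^[n] (a * b) = ∑ ij ∈ antidiagonal n, n.choose ij.1 • (δ^[ij.1] a * δ^[ij.2] b) := by
  induction n with
  | zero => simp
  | succ n ih =>
    rw [sum_antidiagonal_choose_succ_nsmul (M := Ω) (fun i j => δ^[i] a * δ^[j] b) n]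
    simp only [Function.iterate_succ_apply', ih, map_sum, map_nsmul, Derivation.leibniz,
      smul_eq_mul, smul_add, sum_add_distrib]
    congr 1
    refine sum_congr rfl fun ⟨i, j⟩ hij ↦ ?_
    rw [n.choose_symm_of_eq_add (mem_antidiagonal.1 hij).symm, mul_comm]

theorem iter_zero {Ω : Type*} [Field Ω] (δ : Derivation ℤ Ω Ω) (n : ℕ) : δ^[n] 0 = 0 := by
  induction n with
  | zero => simp
  | succ n ih => rw [Function.iterate_succ_apply', ih, map_zero]

theorem iter_add {Ω : Type*} [Field Ω] (δ : Derivation ℤ Ω Ω) (n : ℕ) (a b : Ω) :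
    δ^[n] (a + b) = δ^[n] a + δ^[n] b := by
  induction n with
  | zero => simp
  | succ n ih => simp only [Function.iterate_succ_apply', ih, map_add]

theorem iter_const {Ω : Type*} [Field Ω] (δ : Derivation ℤ Ω Ω) (n : ℕ) (a : Ω) (h : δ a = 0) :
    δ^[n + 1] a = 0 := by
  rw [Function.iterate_succ_apply, h, iter_zero]

/-- Taylor series. -/
noncomputable def tay {Ω k : Type*} [Field Ω] [Field k] [CharZero k] (δ : Derivation ℤ Ω Ω)
    (Φ : Ω →+* k) : Ω →+* PowerSeries k where
  toFun z := PowerSeries.mk fun l => Φ (δ^[l] z) / (l.factorial : k)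
  map_one' := by
    ext n
    cases n with
    | zero => simp
    | succ n => simp [iter_const, coeff_one]
  map_mul' a b := by
    ext n
    rw [coeff_mk, iter_mul, coeff_mul, map_sum, Finset.sum_div]
    refine sum_congr rfl fun ⟨i, j⟩ hij ↦ ?_
    have hij' : i + j = n := mem_antidiagonal.1 hij
    simp only [coeff_mk, map_mul, nsmul_eq_mul, map_natCast]
    have h1 : (i.factorial : k) ≠ 0 := by exact_mod_cast i.factorial_ne_zero
    have h2 : (j.factorial : k) ≠ 0 := by exact_mod_cast j.factorial_ne_zero
    have h3 : (n.factorial : k) ≠ 0 := by exact_mod_cast n.factorial_ne_zero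
    have h4 : ((n.choose i : ℕ) : k) * i.factorial * j.factorial = n.factorial := by
      have := Nat.choose_mul_factorial_mul_factorial (n := n) (k := i) (by omega)
      rw [show n - i = j by omega] at this
      exact_mod_cast this
    rw [div_mul_div_comm, div_eq_div_iff h3 (mul_ne_zero h1 h2), ← h4]
    ring
  map_zero' := by
    ext n
    simp
  map_add' a b := by
    ext n
    simp [add_div]

theorem coeff_tay {Ω k : Type*} [Field Ω] [Field k] [CharZero k] (δ : Derivation ℤ Ω Ω)
    (Φ : Ω →+* k) (z : Ω) (l : ℕ) :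
    coeff l (tay δ Φ z) = Φ (δ^[l] z) / (l.factorial : k) := by
  simp [tay]

theorem tay_const {Ω k : Type*} [Field Ω] [Field k] [CharZero k] (δ : Derivation ℤ Ω Ω)
    (Φ : Ω →+* k) (z : Ω) (h : δ z = 0) : tay δ Φ z = C (Φ z) := by
  ext n
  rw [coeff_tay]
  cases n with
  | zero => simp
  | succ n => rw [iter_const _ _ _ h]; simp [coeff_C]

/-- Evaluation at the root of a power series `G` over `k⟦X⟧`. -/
theorem exists_eval {k : Type*} [Field k] (G : PowerSeries (PowerSeries k))
    (h0 : constantCoeff (constantCoeff G) = 0) (h1 : constantCoeff (coeff 1 G) ≠ 0) :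
    ∃ ρ : PowerSeries (PowerSeries k) →+* PowerSeries k, ρ G = 0 ∧ (∀ a, ρ (C a) = a) ∧
      ∀ f, constantCoeff (ρ f) = constantCoeff (constantCoeff f) := by
  classical
  set I : Ideal (PowerSeries k) := Ideal.span {X} with hI
  have hmem : ∀ a : PowerSeries k, a ∈ I ↔ constantCoeff a = 0 := by
    intro a
    rw [hI, Ideal.mem_span_singleton, X_dvd_iff]
  have hord : (G.map (Ideal.Quotient.mk I)).order = ((1 : ℕ) : ℕ∞) := by
    rw [PowerSeries.order_eq_nat]
    constructor
    · rw [coeff_map, Ne, Ideal.Quotient.eq_zero_iff_mem, hmem]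
      exact h1
    · intro i hi
      have : i = 0 := by omega
      subst this
      rw [coeff_map, Ideal.Quotient.eq_zero_iff_mem, hmem]
      simpa using h0
  have hordn : (G.map (Ideal.Quotient.mk I)).order.toNat = 1 := by
    rw [hord]; rfl
  have H : G.IsWeierstrassDivisorAt I := by
    unfold IsWeierstrassDivisorAt
    rw [hordn, PowerSeries.isUnit_iff_constantCoeff]
    exact IsUnit.mk0 _ h1
  have hex : ∀ f : PowerSeries (PowerSeries k), ∃ a q, f = G * q + C a := by
    intro f
    obtain ⟨hf1, hf2⟩ := H.isWeierstrassDivisionAt_div_mod f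
    rw [hordn] at hf1
    refine ⟨(H.mod f).coeff 0, H.div f, ?_⟩
    have : H.mod f = Polynomial.C ((H.mod f).coeff 0) := by
      ext1 i
      rcases Nat.eq_zero_or_pos i with rfl | hi
      · simp
      · rw [Polynomial.coeff_C_of_ne_zero (by omega)]
        exact (Polynomial.degree_lt_iff_coeff_zero _ _).1 hf1 i hi
    conv_lhs => rw [hf2, this]
    simp
  have hun : ∀ (a a' : PowerSeries k) (q q' : PowerSeries (PowerSeries k)),
      G * q + C a = G * q' + C a' → a = a' := by
    intro a a' q q' h
    have hd : ∀ b : PowerSeries k, (Polynomial.C b).degree <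
        (G.map (Ideal.Quotient.mk I)).order.toNat := by
      intro b
      rw [hordn]
      exact lt_of_le_of_lt Polynomial.degree_C_le (by norm_num)
    have := (H.eq_of_mul_add_eq_mul_add (hd a) (hd a') (by simpa using h)).2
    exact Polynomial.C_injective this
  choose ρ q hρ using hex
  have hρ' : ∀ f a q', f = G * q' + C a → ρ f = a := by
    intro f a q' h
    exact hun _ _ (q f) q' ((hρ f).symm.trans h)
  let R : PowerSeries (PowerSeries k) →+* PowerSeries k :=
    { toFun := ρ
      map_one' := hρ' _ _ 0 (by simp)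
      map_zero' := hρ' _ _ 0 (by simp)
      map_mul' := fun f g => hρ' _ _ (q f * g + C (ρ f) * q g) (by
        conv_lhs => rw [hρ f]
        have : g = G * q g + C (ρ g) := hρ g
        rw [map_mul]
        calc (G * q f + C (ρ f)) * g = G * (q f * g) + C (ρ f) * g := by ring
          _ = G * (q f * g) + C (ρ f) * (G * q g + C (ρ g)) := by rw [← this]
          _ = _ := by ring)
      map_add' := fun f g => hρ' _ _ (q f + q g) (by
        conv_lhs => rw [hρ f, hρ g]
        rw [map_add]
        ring) }
  refine ⟨R, hρ' _ _ 1 (by simp), fun a => hρ' _ _ 0 (by simp), fun f => ?_⟩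
  have := congrArg (fun u => constantCoeff (constantCoeff u)) (hρ f)
  simp only [map_add, map_mul, h0, zero_mul, zero_add, constantCoeff_C] at this
  exact this.symm

theorem t_lift : Pool.Agent.K3h17.St_lift := by
  intro Ω k J _ _ _ _ δ Φ c h T hT hd
  set G : PowerSeries (PowerSeries k) :=
    ∑ j, C (c j) * PowerSeries.map C (tay δ Φ (h j)) - C (C T) with hG
  obtain ⟨ρ, h1, h2, h3⟩ := exists_eval G (by
    simp only [hG, map_sub, map_sum, map_mul, constantCoeff_C]
    rw [sub_eq_zero, ← hT]
    refine Finset.sum_congr rfl fun j _ => ?_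
    rw [← coeff_zero_eq_constantCoeff_apply (PowerSeries.map C _), coeff_map, coeff_tay]
    simp) (by
    have : coeff 1 G = ∑ j, c j * C (Φ (δ (h j))) := by
      simp only [hG, map_sub, map_sum, coeff_C_mul, coeff_map, coeff_tay]
      simp [coeff_C]
    rw [this]
    simpa using hd)
  refine ⟨(ρ.comp (PowerSeries.map C)).comp (tay δ Φ), fun z => ?_, fun z hz => ?_, ?_⟩
  · simp only [RingHom.comp_apply, h3]
    rw [← coeff_zero_eq_constantCoeff_apply (PowerSeries.map C _), coeff_map, coeff_tay]
    simp
  · simp only [RingHom.comp_apply, tay_const δ Φ z hz, map_C, h2]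
  · have : ρ (∑ j, C (c j) * PowerSeries.map C (tay δ Φ (h j))) = C T := by
      have e : ∑ j, C (c j) * PowerSeries.map C (tay δ Φ (h j)) = G + C (C T) := by
        rw [hG]; ring
      rw [e, map_add, h1, h2, zero_add]
    rw [← this, map_sum]
    refine Finset.sum_congr rfl fun j _ => ?_
    rw [map_mul, h2]
    rfl

end Pool.Agent.K3h79.IGP
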