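import Mathlib
import Pool.Agent.K3h17.Stm
import Pool.Agent.Y241.WR.Ext

/-!
Embeddings of a Galois extension of `K(x)` into algebraically closed fields.
-/

set_option autoImplicit false

namespace Pool.Agent.K3h79.IGP

open Polynomial Pool.Agent.K3h17

variable {K Ω N : Type} [Field K] [Field Ω] [Algebra (RatFunc K) Ω] [Algebra K Ω]
  [IsScalarTower K (RatFunc K) Ω] [Field N] [Algebra K N]

/-- Two embeddings with the same value at `x` agree on `K(x)`. -/
theorem agree (Φ Φ' : Ω →ₐ[K] N) (h : Φ (xx K Ω) = Φ' (xx K Ω)) (r : RatFunc K) :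
    Φ (algebraMap (RatFunc K) Ω r) = Φ' (algebraMap (RatFunc K) Ω r) := by
  have hp : ∀ p : K[X], Φ (algebraMap (RatFunc K) Ω (algebraMap K[X] (RatFunc K) p)) =
      Φ' (algebraMap (RatFunc K) Ω (algebraMap K[X] (RatFunc K) p)) := by
    intro p
    have h1 : algebraMap (RatFunc K) Ω (algebraMap K[X] (RatFunc K) p) = aeval (xx K Ω) p := by
      have h2 : algebraMap K[X] (RatFunc K) p = aeval (RatFunc.X : RatFunc K) p := by
        rw [← RatFunc.algebraMap_X, aeval_algebraMap_apply, aeval_X_left_apply]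
      rw [h2, ← aeval_algebraMap_apply]
      rfl
    rw [h1, ← aeval_algHom_apply, ← aeval_algHom_apply, h]
  rw [← RatFunc.num_div_denom r, map_div₀, map_div₀, map_div₀, hp, hp]

theorem conj [FiniteDimensional (RatFunc K) Ω] [IsGalois (RatFunc K) Ω] (Φ Φ' : Ω →ₐ[K] N)
    (h : Φ (xx K Ω) = Φ' (xx K Ω)) : ∃ γ : Ω ≃ₐ[RatFunc K] Ω, ∀ z, Φ' z = Φ (γ z) := by
  let _ : Algebra Ω N := Φ.toRingHom.toAlgebra
  let _ : Algebra (RatFunc K) N := (Φ.toRingHom.comp (algebraMap (RatFunc K) Ω)).toAlgebra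
  have : IsScalarTower (RatFunc K) Ω N := IsScalarTower.of_algebraMap_eq fun _ => rfl
  let Φr : Ω →ₐ[RatFunc K] N := { Φ'.toRingHom with
    commutes' := fun r => (agree Φ Φ' h r).symm }
  refine ⟨AlgEquiv.ofBijective (AlgHom.restrictNormal Φr Ω)
    (AlgHom.normal_bijective (RatFunc K) Ω Ω _), fun z => ?_⟩
  exact (AlgHom.restrictNormal_commutes Φr Ω z).symm

theorem emb [FiniteDimensional (RatFunc K) Ω] [IsAlgClosed N] (s : N) (hs : Transcendental K s) :
    ∃ Φ : Ω →ₐ[K] N, Φ (xx K Ω) = s := by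
  let f : RatFunc K →ₐ[K] N := IsFractionRing.liftAlgHom (A := K[X]) (g := aeval s)
    (transcendental_iff_injective.1 hs)
  let _ : Algebra (RatFunc K) N := f.toRingHom.toAlgebra
  have : IsScalarTower K (RatFunc K) N := IsScalarTower.of_algebraMap_eq fun a => (f.commutes a).symm
  have : Algebra.IsAlgebraic (RatFunc K) Ω := inferInstance
  let g : Ω →ₐ[RatFunc K] N := IsAlgClosed.lift
  refine ⟨g.restrictScalars K, ?_⟩
  have h1 : g (algebraMap (RatFunc K) Ω RatFunc.X) = f RatFunc.X := g.commutes _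
  have h2 : f RatFunc.X = s := by
    rw [← RatFunc.algebraMap_X]
    have : f (algebraMap K[X] (RatFunc K) X) = aeval s X :=
      IsFractionRing.lift_algebraMap (K := RatFunc K) (transcendental_iff_injective.1 hs) X
    rw [this, aeval_X]
  exact h1.trans h2

theorem fiber [FiniteDimensional (RatFunc K) Ω] [IsGalois (RatFunc K) Ω]
    (P : Subgroup (Ω ≃ₐ[RatFunc K] Ω)) {n : ℕ} (Φ : Fin n → (Ω →ₐ[K] N))
    (hinj : ∀ i i', ∀ γ ∈ P, (∀ z, Φ i z = Φ i' (γ z)) → i = i') (a : N) :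
    {i | Φ i (xx K Ω) = a}.ncard ≤ P.index := by
  rcases Set.eq_empty_or_nonempty {i | Φ i (xx K Ω) = a} with h | ⟨i₁, hi₁⟩
  · rw [h, Set.ncard_empty]
    exact Nat.zero_le _
  · have hg : ∀ i, ∃ g : Ω ≃ₐ[RatFunc K] Ω, Φ i (xx K Ω) = a → ∀ z, Φ i z = Φ i₁ (g z) := by
      intro i
      by_cases hi : Φ i (xx K Ω) = a
      · obtain ⟨g, hg⟩ := conj (Φ i₁) (Φ i) (hi₁.trans hi.symm)
        exact ⟨g, fun _ => hg⟩
      · exact ⟨1, fun h => absurd h hi⟩
    choose g hg using hg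
    have h1 : Set.InjOn (fun i => (g i : (Ω ≃ₐ[RatFunc K] Ω) ⧸ P)) {i | Φ i (xx K Ω) = a} := by
      intro i hi i' hi' hii
      have hmem : (g i)⁻¹ * g i' ∈ P := QuotientGroup.eq.1 hii
      refine (hinj i' i _ hmem fun z => ?_).symm
      rw [hg i' hi', hg i hi]
      congr 1
      rw [AlgEquiv.mul_apply]
      exact ((g i).apply_symm_apply _).symm
    have : Finite (Ω ≃ₐ[RatFunc K] Ω) := inferInstance
    have : Finite ((Ω ≃ₐ[RatFunc K] Ω) ⧸ P) := inferInstance
    calc {i | Φ i (xx K Ω) = a}.ncard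
        = ((fun i => (g i : (Ω ≃ₐ[RatFunc K] Ω) ⧸ P)) '' {i | Φ i (xx K Ω) = a}).ncard :=
          (Set.ncard_image_of_injOn h1).symm
      _ ≤ Nat.card ((Ω ≃ₐ[RatFunc K] Ω) ⧸ P) := by
          rw [← Set.ncard_univ]
          exact Set.ncard_le_ncard (Set.subset_univ _) (Set.toFinite _)
      _ = P.index := rfl

end Pool.Agent.K3h79.IGP
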