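import Mathlib
import Pool.Agent.K3h17.Stm
import Pool.Agent.Y793.Fam
import Pool.Agent.K3h79.IGP.Emb
import Pool.Agent.K3h79.IGP.Lift
import Pool.Agent.K3h79.IGP.Der

/-!
IGP brick V: the polynomial part.
-/

set_option autoImplicit false
set_option linter.unusedSectionVars false
set_option linter.unusedSimpArgs false

namespace Pool.Agent.K3h79.IGP

open Polynomial Pool.Agent.K3h17 Pool.Agent.Y793

section poly

variable {K F k : Type} [Field K] [CharZero K] [Field F] [Algebra K F] [Field k]
  [Algebra F k] [Algebra K k] [IsScalarTower K F k]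

/-- The polynomial `κr + ε κt` over `k⟦ε⟧`. -/
noncomputable def AA (κt : K[X]) (κr : F[X]) : (PowerSeries k)[X] :=
  κr.map (PowerSeries.C.comp (algebraMap F k)) +
    C (PowerSeries.X : PowerSeries k) * κt.map (algebraMap K (PowerSeries k))

/-- Its squared antiderivative. -/
noncomputable def SS (κt : K[X]) (κr : F[X]) : (PowerSeries k)[X] :=
  adr K ((AA (k := k) κt κr) ^ 2)

theorem AA_const (κt : K[X]) (κr : F[X]) :
    (AA (k := k) κt κr).map PowerSeries.constantCoeff = κr.map (algebraMap F k) := by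
  unfold AA
  rw [Polynomial.map_add, Polynomial.map_mul, Polynomial.map_map, map_C,
    PowerSeries.constantCoeff_X, map_zero, zero_mul, add_zero]
  congr 1

theorem SS_const (κt : K[X]) (κr : F[X]) :
    (SS (k := k) κt κr).map PowerSeries.constantCoeff =
      (adr K (κr ^ 2)).map (algebraMap F k) := by
  unfold SS
  let f : PowerSeries k →ₐ[K] k := { (PowerSeries.constantCoeff : PowerSeries k →+* k) with
    commutes' := fun a => by
      rw [PowerSeries.algebraMap_apply]
      exact PowerSeries.constantCoeff_C _ }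
  have h1 := adr_map f ((AA (k := k) κt κr) ^ 2)
  have h2 : (f : PowerSeries k →+* k) = PowerSeries.constantCoeff := rfl
  rw [h2] at h1
  rw [h1, Polynomial.map_pow, AA_const]
  have h3 := adr_map (IsScalarTower.toAlgHom K F k) (κr ^ 2)
  have h4 : (IsScalarTower.toAlgHom K F k : F →+* k) = algebraMap F k := rfl
  rw [h4] at h3
  rw [h3, Polynomial.map_pow]

theorem SS_deriv (κt : K[X]) (κr : F[X]) :
    derivative (SS (k := k) κt κr) = (AA (k := k) κt κr) ^ 2 :=
  derivative_adr _

omit [CharZero K] in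
theorem AA_deg (κt : K[X]) (κr : F[X]) (l : ℕ) (ht : κt.natDegree = l + 2)
    (hr : κr.natDegree = l) : (AA (k := k) κt κr).natDegree ≤ l + 2 := by
  unfold AA
  refine (natDegree_add_le _ _).trans (max_le ?_ ?_)
  · exact natDegree_map_le.trans (by omega)
  · refine natDegree_mul_le.trans ?_
    rw [natDegree_C, zero_add]
    exact natDegree_map_le.trans (by omega)

/-- Coefficients of the square. -/
theorem sq_coeff (κt : K[X]) (κr : F[X]) (l : ℕ) (ht : κt.natDegree = l + 2)
    (hr : κr.natDegree = l) :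
    (∀ i, 2 * l < i → PowerSeries.X ∣ ((AA (k := k) κt κr) ^ 2).coeff i) ∧
    (∀ i, 2 * l + 2 < i → PowerSeries.X ^ 2 ∣ ((AA (k := k) κt κr) ^ 2).coeff i) := by
  set a : (PowerSeries k)[X] := κr.map (PowerSeries.C.comp (algebraMap F k)) with ha
  set b : (PowerSeries k)[X] := κt.map (algebraMap K (PowerSeries k)) with hb
  have hda : a.natDegree ≤ l := natDegree_map_le.trans hr.le
  have hdb : b.natDegree ≤ l + 2 := natDegree_map_le.trans ht.le
  have e : (AA (k := k) κt κr) ^ 2 = a ^ 2 + C (2 * PowerSeries.X) * (a * b) +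
      C (PowerSeries.X ^ 2) * b ^ 2 := by
    unfold AA
    rw [← ha, ← hb, map_mul, map_pow]
    have : (C (2 : PowerSeries k) : (PowerSeries k)[X]) = 2 := map_ofNat C 2
    rw [this]
    ring
  have h1 : ∀ i, 2 * l < i → (a ^ 2).coeff i = 0 := fun i hi =>
    coeff_eq_zero_of_natDegree_lt (lt_of_le_of_lt (natDegree_pow_le_of_le 2 hda) (by omega))
  have h2 : ∀ i, 2 * l + 2 < i → (a * b).coeff i = 0 := fun i hi =>
    coeff_eq_zero_of_natDegree_lt (lt_of_le_of_lt (natDegree_mul_le_of_le hda hdb) (by omega))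
  constructor
  · intro i hi
    rw [e, coeff_add, coeff_add, h1 i hi, zero_add, coeff_C_mul, coeff_C_mul]
    refine dvd_add ?_ ?_
    · exact ((Dvd.intro_left _ rfl)).mul_right _
    · exact ((dvd_pow_self _ two_ne_zero)).mul_right _
  · intro i hi
    rw [e, coeff_add, coeff_add, h1 i (by omega), zero_add, coeff_C_mul, coeff_C_mul, h2 i hi,
      mul_zero, zero_add]
    exact Dvd.intro _ rfl

theorem SS_coeff_succ (κt : K[X]) (κr : F[X]) (i : ℕ) :
    (SS (k := k) κt κr).coeff (i + 1) = algebraMap K (PowerSeries k) ((i : K) + 1)⁻¹ *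
      ((AA (k := k) κt κr) ^ 2).coeff i := coeff_adr_succ _ _

theorem SS_deg (κt : K[X]) (κr : F[X]) (l : ℕ) (ht : κt.natDegree = l + 2)
    (hr : κr.natDegree = l) : (SS (k := k) κt κr).natDegree ≤ 2 * l + 5 := by
  rw [natDegree_le_iff_coeff_eq_zero]
  intro i hi
  obtain ⟨i, rfl⟩ : ∃ m, i = m + 1 := ⟨i - 1, by omega⟩
  rw [SS_coeff_succ, coeff_eq_zero_of_natDegree_lt, mul_zero]
  exact lt_of_le_of_lt (natDegree_pow_le_of_le 2 (AA_deg κt κr l ht hr)) (by omega)

/-- The leading coefficient is `ε²` times a nonzero constant. -/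
theorem SS_top (κt : K[X]) (κr : F[X]) (l : ℕ) (ht : κt.natDegree = l + 2)
    (hr : κr.natDegree = l) : ∃ u : k, u ≠ 0 ∧
      (SS (k := k) κt κr).coeff (2 * l + 5) = PowerSeries.X ^ 2 * PowerSeries.C u := by
  have h0 : κt ≠ 0 := by
    rintro rfl
    rw [natDegree_zero] at ht
    omega
  have hA : (AA (k := k) κt κr).coeff (l + 2) =
      PowerSeries.X * PowerSeries.C (algebraMap K k κt.leadingCoeff) := by
    unfold AA
    rw [coeff_add, coeff_map, coeff_eq_zero_of_natDegree_lt (by omega : κr.natDegree < l + 2),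
      map_zero, zero_add, coeff_C_mul, coeff_map, PowerSeries.algebraMap_apply, leadingCoeff, ht]
  refine ⟨algebraMap K k (((2 * l + 4 : ℕ) : K) + 1)⁻¹ * (algebraMap K k κt.leadingCoeff) ^ 2,
    mul_ne_zero ?_ (pow_ne_zero 2 ?_), ?_⟩
  · rw [Ne, map_eq_zero, inv_eq_zero]
    exact_mod_cast Nat.succ_ne_zero (2 * l + 4)
  · rwa [Ne, map_eq_zero, leadingCoeff_eq_zero]
  · have h2 : ((AA (k := k) κt κr) ^ 2).coeff (2 * l + 4) = ((AA (k := k) κt κr).coeff (l + 2)) ^ 2 := by
      rw [show 2 * l + 4 = 2 * (l + 2) by ring]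
      exact coeff_pow_of_natDegree_le (AA_deg κt κr l ht hr)
    rw [SS_coeff_succ, h2, hA, PowerSeries.algebraMap_apply, map_mul, map_pow]
    ring

/-- A root in the field of fractions of `k⟦ε⟧` is in `k⟦ε⟧`. -/
theorem root_mem (κt : K[X]) (κr : F[X]) (l : ℕ) (ht : κt.natDegree = l + 2)
    (hr : κr.natDegree = l) (T : PowerSeries k) (a : FractionRing (PowerSeries k))
    (ha : eval₂ (algebraMap (PowerSeries k) (FractionRing (PowerSeries k))) a (SS (k := k) κt κr) =
      algebraMap (PowerSeries k) (FractionRing (PowerSeries k)) T) :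
    ∃ r : PowerSeries k, algebraMap (PowerSeries k) (FractionRing (PowerSeries k)) r = a := by
  rcases ValuationRing.isInteger_or_isInteger (PowerSeries k) a with h | h
  · exact h
  · obtain ⟨b, hb⟩ := h
    by_contra hcon
    have ha0 : a ≠ 0 := by
      rintro rfl
      exact hcon ⟨0, map_zero _⟩
    have hab : a * algebraMap (PowerSeries k) (FractionRing (PowerSeries k)) b = 1 := by
      rw [hb, mul_inv_cancel₀ ha0]
    have hbu : ¬ IsUnit b := by
      rintro ⟨u, rfl⟩
      apply hcon
      refine ⟨(u⁻¹ : (PowerSeries k)ˣ), ?_⟩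
      have h1 : algebraMap (PowerSeries k) (FractionRing (PowerSeries k)) (u : PowerSeries k) *
          algebraMap (PowerSeries k) (FractionRing (PowerSeries k))
            ((u⁻¹ : (PowerSeries k)ˣ) : PowerSeries k) = 1 := by
        rw [← map_mul, Units.mul_inv, map_one]
      calc _ = (a * algebraMap (PowerSeries k) (FractionRing (PowerSeries k)) (u : PowerSeries k)) *
            algebraMap (PowerSeries k) (FractionRing (PowerSeries k))
            ((u⁻¹ : (PowerSeries k)ˣ) : PowerSeries k) := by rw [hab, one_mul]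
        _ = a := by rw [mul_assoc, h1, mul_one]
    have hXb : PowerSeries.X ∣ b := by
      rw [PowerSeries.X_dvd_iff]
      by_contra h
      exact hbu (PowerSeries.isUnit_iff_constantCoeff.2 (IsUnit.mk0 _ h))
    set d := 2 * l + 5 with hd
    have hsum : ∑ i ∈ Finset.range (d + 1), (SS (k := k) κt κr).coeff i * b ^ (d - i) =
        T * b ^ d := by
      apply IsFractionRing.injective (PowerSeries k) (FractionRing (PowerSeries k))
      rw [map_sum, map_mul, ← ha, eval₂_eq_sum_range' _ (lt_of_le_of_lt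
        (SS_deg κt κr l ht hr) (Nat.lt_succ_self _)), Finset.sum_mul]
      refine Finset.sum_congr rfl fun i hi => ?_
      have hi' : i ≤ d := Nat.lt_succ_iff.1 (Finset.mem_range.1 hi)
      rw [map_mul, mul_assoc]
      congr 1
      rw [map_pow, map_pow]
      conv_rhs => rw [← Nat.add_sub_of_le hi', pow_add]
      rw [← mul_assoc, ← mul_pow, hab, one_pow, one_mul]
    rw [Finset.sum_range_succ, Nat.sub_self, pow_zero, mul_one] at hsum
    obtain ⟨u, hu, hu2⟩ := SS_top (k := k) κt κr l ht hr
    obtain ⟨h1, h2⟩ := sq_coeff (k := k) κt κr l ht hr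
    have h3 : PowerSeries.X ^ 3 ∣ ∑ i ∈ Finset.range d, (SS (k := k) κt κr).coeff i * b ^ (d - i) := by
      refine Finset.dvd_sum fun i hi => ?_
      have hi' : i < d := Finset.mem_range.1 hi
      have hb' : ∀ m, PowerSeries.X ^ m ∣ b ^ m := fun m => pow_dvd_pow_of_dvd hXb m
      rcases Nat.lt_or_ge (2 * l + 3) i with h | h
      · -- i = 2l+4
        obtain ⟨m, rfl⟩ : ∃ m, i = m + 1 := ⟨i - 1, by omega⟩
        have e1 : PowerSeries.X ^ 2 ∣ (SS (k := k) κt κr).coeff (m + 1) := by
          rw [SS_coeff_succ]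
          exact (h2 m (by omega)).mul_left _
        have e2 : PowerSeries.X ^ 1 ∣ b ^ (d - (m + 1)) :=
          (pow_dvd_pow _ (by omega)).trans (hb' _)
        have := mul_dvd_mul e1 e2
        rwa [← pow_add] at this
      · rcases Nat.lt_or_ge (2 * l + 1) i with h' | h'
        · obtain ⟨m, rfl⟩ : ∃ m, i = m + 1 := ⟨i - 1, by omega⟩
          have e1 : PowerSeries.X ^ 1 ∣ (SS (k := k) κt κr).coeff (m + 1) := by
            rw [SS_coeff_succ, pow_one]
            exact (h1 m (by omega)).mul_left _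
          have e2 : PowerSeries.X ^ 2 ∣ b ^ (d - (m + 1)) :=
            (pow_dvd_pow _ (by omega)).trans (hb' _)
          have := mul_dvd_mul e1 e2
          rwa [← pow_add] at this
        · exact ((pow_dvd_pow _ (by omega)).trans (hb' _)).mul_left _
    have h4 : PowerSeries.X ^ 3 ∣ T * b ^ d :=
      ((pow_dvd_pow (PowerSeries.X : PowerSeries k) (by omega : 3 ≤ d)).trans
        (pow_dvd_pow_of_dvd hXb d)).mul_left _
    have h5 : PowerSeries.X ^ 3 ∣ (SS (k := k) κt κr).coeff d := by
      rw [← hsum] at h4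
      exact (dvd_add_right h3).1 h4
    rw [hu2, pow_succ] at h5
    have h6 : PowerSeries.X ∣ (PowerSeries.C u : PowerSeries k) :=
      (mul_dvd_mul_iff_left (pow_ne_zero 2 PowerSeries.X_ne_zero)).1 h5
    rw [PowerSeries.X_dvd_iff, PowerSeries.constantCoeff_C] at h6
    exact hu h6

/-- Uniqueness of the lift of a simple root. -/
theorem root_unique (κt : K[X]) (κr : F[X]) (r r' : PowerSeries k)
    (h : (SS (k := k) κt κr).eval r = (SS (k := k) κt κr).eval r')
    (hc : PowerSeries.constantCoeff r = PowerSeries.constantCoeff r')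
    (hs : aeval (PowerSeries.constantCoeff r) κr ≠ 0) : r = r' := by
  set p := SS (k := k) κt κr - C ((SS (k := k) κt κr).eval r') with hp
  have hr : p.eval r = 0 := by rw [hp, eval_sub, eval_C, h, sub_self]
  have hr' : p.IsRoot r' := by rw [IsRoot, hp, eval_sub, eval_C, sub_self]
  obtain ⟨q, hq⟩ := dvd_iff_isRoot.2 hr'
  rw [hq, eval_mul, eval_sub, eval_X, eval_C] at hr
  rcases mul_eq_zero.1 hr with h1 | h1
  · exact sub_eq_zero.1 h1
  · exfalso
    have h2 : derivative p = (AA (k := k) κt κr) ^ 2 := by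
      rw [hp, derivative_sub, derivative_C, sub_zero, SS_deriv]
    have h3 := congrArg (fun f => PowerSeries.constantCoeff (eval r f)) h2
    simp only [hq, derivative_mul, derivative_sub, derivative_X, derivative_C, sub_zero, one_mul,
      eval_add, eval_mul, eval_sub, eval_X, eval_C, h1, zero_add, eval_pow, map_mul, map_sub, hc,
      sub_self, zero_mul, map_zero, map_pow] at h3
    apply hs
    have h4 : PowerSeries.constantCoeff (eval r (AA (k := k) κt κr)) = 0 :=
      pow_eq_zero_iff two_ne_zero |>.1 h3.symm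
    rw [← h4, ← eval_map_apply, AA_const, eval_map_algebraMap]

end poly

end Pool.Agent.K3h79.IGP
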