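import Mathlib
import Pool.Agent.K3h79.IGP.Sml1

/-!
IGP brick V (owner helper17): an automorphism of small support from a degenerating family.
`t_sml` is `St_sml` with the additional hypothesis `κr ≠ 0`.
-/

set_option autoImplicit false
set_option linter.unusedSectionVars false
set_option linter.unusedSimpArgs false

namespace Pool.Agent.K3h79.IGP

open Polynomial Pool.Agent.K3h17 Pool.Agent.Y793

section roots

variable {K F k : Type} [Field K] [CharZero K] [Field F] [Algebra K F] [Field k]
  [Algebra F k] [Algebra K k] [IsScalarTower K F k]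

theorem adr_natDegree (κr : F[X]) (h : κr ≠ 0) :
    (adr K (κr ^ 2)).natDegree = 2 * κr.natDegree + 1 := by
  apply le_antisymm
  · rw [natDegree_le_iff_coeff_eq_zero]
    intro i hi
    obtain ⟨i, rfl⟩ : ∃ m, i = m + 1 := ⟨i - 1, by omega⟩
    rw [coeff_adr_succ, coeff_eq_zero_of_natDegree_lt, mul_zero]
    rw [natDegree_pow]
    omega
  · refine le_natDegree_of_ne_zero ?_
    rw [coeff_adr_succ]
    refine mul_ne_zero ?_ ?_
    · rw [Ne, map_eq_zero, inv_eq_zero]
      exact_mod_cast Nat.succ_ne_zero (2 * κr.natDegree)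
    · rw [← natDegree_pow, coeff_natDegree]
      exact leadingCoeff_ne_zero.2 (pow_ne_zero 2 h)

/-- A root of `S₀ - T` is transcendental. -/
theorem root_trans (κr : F[X]) (T s : k) (hT : Transcendental F T)
    (hs : aeval s (adr K (κr ^ 2)) = T) : Transcendental F s := by
  rw [← hs] at hT
  exact (transcendental_aeval_iff.1 hT).1

theorem card_roots [IsAlgClosed k] (κr : F[X]) (h : κr ≠ 0) (T : k) (hT : Transcendental F T) :
    ∃ s : Finset k, s.card = 2 * κr.natDegree + 1 ∧
      ∀ a, a ∈ s ↔ aeval a (adr K (κr ^ 2)) = T := by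
  classical
  set p : k[X] := (adr K (κr ^ 2)).map (algebraMap F k) - C T with hp
  have hd : p.natDegree = 2 * κr.natDegree + 1 := by
    rw [hp, natDegree_sub_C, natDegree_map, adr_natDegree κr h]
  have hp0 : p ≠ 0 := by
    intro h0
    rw [h0, natDegree_zero] at hd
    omega
  have hroot : ∀ a, a ∈ p.roots ↔ aeval a (adr K (κr ^ 2)) = T := by
    intro a
    rw [mem_roots hp0, IsRoot, hp, eval_sub, eval_C, eval_map_algebraMap, sub_eq_zero]
  have hnd : p.roots.Nodup := by
    rw [Multiset.nodup_iff_count_le_one]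
    intro a
    by_contra hcon
    push Not at hcon
    rw [count_roots] at hcon
    have h1 := (one_lt_rootMultiplicity_iff_isRoot hp0).1 hcon
    have h2 : aeval a (adr K (κr ^ 2)) = T := (hroot a).1 ((mem_roots hp0).2 h1.1)
    have h3 := h1.2
    rw [IsRoot, hp, derivative_sub, derivative_C, sub_zero, derivative_map, derivative_adr,
      eval_map_algebraMap, map_pow] at h3
    exact root_trans (K := K) κr T a hT h2 ⟨κr, h, pow_eq_zero_iff two_ne_zero |>.1 h3⟩
  refine ⟨p.roots.toFinset, ?_, fun a => by rw [Multiset.mem_toFinset, hroot]⟩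
  rw [Multiset.toFinset_card_of_nodup hnd, ← hd]
  exact (IsAlgClosed.splits p).natDegree_eq_card_roots.symm

theorem SS_eval_const (κt : K[X]) (κr : F[X]) (r : PowerSeries k) (T : k)
    (h : (SS (k := k) κt κr).eval r = PowerSeries.C T) :
    aeval (PowerSeries.constantCoeff r) (adr K (κr ^ 2)) = T := by
  have h1 := congrArg PowerSeries.constantCoeff h
  rw [PowerSeries.constantCoeff_C, ← eval_map_apply, SS_const, eval_map_algebraMap] at h1
  exact h1

/-- Lifting an embedding. -/
theorem lifts {Ω : Type} [IsAlgClosed k] [Field Ω] [Algebra (RatFunc K) Ω] [Algebra K Ω]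
    [IsScalarTower K (RatFunc K) Ω] [FiniteDimensional (RatFunc K) Ω] [IsGalois (RatFunc K) Ω]
    (κt : K[X]) (κr : F[X]) (hκ : κr ≠ 0) (T s : k) (hT : Transcendental F T)
    (hs : aeval s (adr K (κr ^ 2)) = T) :
    ∃ Ψ : Ω →ₐ[K] PowerSeries k, (SS (k := k) κt κr).eval (Ψ (xx K Ω)) = PowerSeries.C T ∧
      PowerSeries.constantCoeff (Ψ (xx K Ω)) = s := by
  have hcF : CharZero F := charZero_of_injective_algebraMap (algebraMap K F).injective
  have hck : CharZero k := charZero_of_injective_algebraMap (algebraMap K k).injective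
  obtain ⟨δ, hδx, -, -⟩ := t_der K Ω
  have hsF : Transcendental F s := root_trans κr T s hT hs
  obtain ⟨Φ, hΦ⟩ := emb (K := K) (Ω := Ω) (N := k) s (fun h => hsF (h.tower_top F))
  set d := (SS (k := k) κt κr).natDegree with hd
  obtain ⟨Ψ, h1, h2, h3⟩ := t_lift Ω k (Fin (d + 1)) (δ.restrictScalars ℤ) (Φ : Ω →+* k)
    (fun i => (SS (k := k) κt κr).coeff i) (fun i => (xx K Ω) ^ (i : ℕ)) T
    (by
      rw [Finset.sum_range (n := d + 1) (f := fun i => PowerSeries.constantCoeff
        ((SS (k := k) κt κr).coeff i) * (Φ : Ω →+* k) ((xx K Ω) ^ i)) |>.symm]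
      rw [← hs, ← eval_map_algebraMap, ← SS_const κt κr, eval_map, eval₂_eq_sum_range]
      refine Finset.sum_congr rfl fun i _ => ?_
      rw [map_pow]
      congr 2)
    (by
      rw [Finset.sum_range (n := d + 1) (f := fun i => PowerSeries.constantCoeff
        ((SS (k := k) κt κr).coeff i) * (Φ : Ω →+* k) ((δ.restrictScalars ℤ) ((xx K Ω) ^ i))) |>.symm]
      have e : ∑ i ∈ Finset.range (d + 1), PowerSeries.constantCoeff
          ((SS (k := k) κt κr).coeff i) * (Φ : Ω →+* k) ((δ.restrictScalars ℤ) ((xx K Ω) ^ i)) =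
          (aeval s κr) ^ 2 := by
        have e1 : (derivative ((SS (k := k) κt κr).map PowerSeries.constantCoeff)).eval s =
            (aeval s κr) ^ 2 := by
          rw [derivative_map, SS_deriv, Polynomial.map_pow, AA_const, eval_pow,
            eval_map_algebraMap]
        rw [← e1, derivative_map]
        conv_rhs => rw [(SS (k := k) κt κr).as_sum_range]
        rw [derivative_sum, Polynomial.map_sum, eval_finsetSum]
        refine Finset.sum_congr rfl fun i _ => ?_
        rw [derivative_monomial, map_monomial, eval_monomial]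
        have e2 : (δ.restrictScalars ℤ) ((xx K Ω) ^ i) = (i : Ω) * (xx K Ω) ^ (i - 1) := by
          change δ ((xx K Ω) ^ i) = _
          rw [Derivation.leibniz_pow, hδx, smul_eq_mul, mul_one, nsmul_eq_mul]
        rw [e2, map_mul, map_natCast, map_pow, map_mul, map_natCast]
        have e3 : (Φ : Ω →+* k) (xx K Ω) = s := hΦ
        rw [e3]
        ring
      rw [e]
      exact pow_ne_zero 2 fun h => hsF ⟨κr, hκ, h⟩)
  refine ⟨{ Ψ with commutes' := fun a => ?_ }, ?_, ?_⟩
  · have := h2 (algebraMap K Ω a) (δ.map_algebraMap a)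
    rw [PowerSeries.algebraMap_apply]
    refine this.trans ?_
    congr 1
    exact Φ.commutes a
  · have : (SS (k := k) κt κr).eval (Ψ (xx K Ω)) = PowerSeries.C T := by
      rw [← h3, Finset.sum_range (n := d + 1) (f := fun i =>
        ((SS (k := k) κt κr).coeff i) * Ψ ((xx K Ω) ^ i)) |>.symm, eval_eq_sum_range]
      refine Finset.sum_congr rfl fun i _ => ?_
      rw [map_pow]
    exact this
  · exact (h1 _).trans hΦ

end roots

end Pool.Agent.K3h79.IGP
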