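import Mathlib
import Pool.Agent.K3h79.IGP.Sml2

/-!
IGP brick V (owner helper17): an automorphism of small support from a degenerating family.
`t_sml` is `St_sml` with the additional hypothesis `κr ≠ 0`.
-/

set_option autoImplicit false
set_option linter.unusedSectionVars false
set_option linter.unusedSimpArgs false

namespace Pool.Agent.K3h79.IGP

open Polynomial Pool.Agent.K3h17 Pool.Agent.Y793

section main

variable {K F k : Type} [Field K] [CharZero K] [Field F] [Algebra K F] [Field k]
  [Algebra F k] [Algebra K k] [IsScalarTower K F k]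
  {E : Type} [Field E]

theorem SE_natDegree (j : PowerSeries k →+* E) (hj : Function.Injective j) (κt : K[X]) (κr : F[X])
    (l : ℕ) (ht : κt.natDegree = l + 2) (hr : κr.natDegree = l) (c : E) :
    ((SS (k := k) κt κr).map j - C c).natDegree = 2 * l + 5 := by
  rw [natDegree_sub_C]
  apply le_antisymm
  · exact natDegree_map_le.trans (SS_deg κt κr l ht hr)
  · refine le_natDegree_of_ne_zero ?_
    obtain ⟨u, hu, h⟩ := SS_top (k := k) κt κr l ht hr
    rw [coeff_map, h, Ne, map_eq_zero_iff j hj, mul_eq_zero, not_or]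
    refine ⟨pow_ne_zero 2 PowerSeries.X_ne_zero, ?_⟩
    rwa [map_eq_zero_iff _ PowerSeries.C_injective]

theorem exists_root [IsAlgClosed k] [IsAlgClosed E] (j : PowerSeries k →+* E)
    (hj : Function.Injective j) (κt : K[X]) (κr : F[X])
    (l : ℕ) (ht : κt.natDegree = l + 2) (hr : κr.natDegree = l) (hκ : κr ≠ 0) (T : k)
    (hT : Transcendental F T) (ι : FractionRing (PowerSeries k) →+* E)
    (hι : ∀ f, ι (algebraMap (PowerSeries k) _ f) = j f) :
    ∃ x₁ : E, ((SS (k := k) κt κr).map j).eval x₁ = j (PowerSeries.C T) ∧ x₁ ∉ Set.range ι := by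
  classical
  by_contra hcon
  push Not at hcon
  set p := (SS (k := k) κt κr).map j - C (j (PowerSeries.C T)) with hp
  have hd : p.natDegree = 2 * l + 5 := SE_natDegree j hj κt κr l ht hr _
  have hp0 : p ≠ 0 := by
    intro h0
    rw [h0, natDegree_zero] at hd
    omega
  have hroot : ∀ a, a ∈ p.roots ↔ ((SS (k := k) κt κr).map j).eval a = j (PowerSeries.C T) := by
    intro a
    rw [mem_roots hp0, IsRoot, hp, eval_sub, eval_C, sub_eq_zero]
  have hR : ∀ a, a ∈ p.roots → ∃ r : PowerSeries k, j r = a ∧
      (SS (k := k) κt κr).eval r = PowerSeries.C T := by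
    intro a ha
    have ha' := (hroot a).1 ha
    obtain ⟨b, hb⟩ := hcon a ha'
    obtain ⟨r, hr'⟩ := root_mem κt κr l ht hr (PowerSeries.C T) b (by
      apply ι.injective
      rw [hom_eval₂, hι, hb, ← ha', eval_map]
      congr 1
      ext f
      exact hι f)
    refine ⟨r, ?_, ?_⟩
    · rw [← hι, hr', hb]
    · apply hj
      rw [← ha', ← hb, ← hr', hι, eval_map_apply]
  obtain ⟨s, hcard, hs⟩ := card_roots (K := K) κr hκ T hT
  have hne : ∀ t : k, aeval t (adr K (κr ^ 2)) = T → aeval t κr ≠ 0 := fun t ht h =>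
    root_trans (K := K) κr T t hT ht ⟨κr, hκ, h⟩
  have hnd : p.roots.Nodup := by
    rw [Multiset.nodup_iff_count_le_one]
    intro a
    by_contra hcon'
    push Not at hcon'
    rw [count_roots] at hcon'
    have h1 := (one_lt_rootMultiplicity_iff_isRoot hp0).1 hcon'
    obtain ⟨r, hr1, hr2⟩ := hR a ((mem_roots hp0).2 h1.1)
    have h3 := h1.2
    rw [IsRoot, hp, derivative_sub, derivative_C, sub_zero, derivative_map, SS_deriv, ← hr1,
      eval_map_apply, map_eq_zero_iff j hj, eval_pow] at h3
    have h4 := pow_eq_zero_iff two_ne_zero |>.1 h3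
    have h5 := SS_eval_const κt κr r T hr2
    apply hne _ h5
    rw [← eval_map_algebraMap, ← AA_const κt κr, eval_map_apply, h4, map_zero]
  choose! R hR1 hR2 using hR
  have hinj : Set.InjOn (fun a => PowerSeries.constantCoeff (R a)) (p.roots.toFinset : Set E) := by
    intro a ha b hb hab
    rw [Finset.mem_coe, Multiset.mem_toFinset] at ha hb
    have h6 : R a = R b := root_unique κt κr _ _ ((hR2 a ha).trans (hR2 b hb).symm) hab
      (hne _ (SS_eval_const κt κr _ T (hR2 a ha)))
    rw [← hR1 a ha, ← hR1 b hb, h6]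
  have h7 := Finset.card_le_card_of_injOn (s := p.roots.toFinset) (t := s) _ (fun a ha => by
    rw [Finset.mem_coe, Multiset.mem_toFinset] at ha
    rw [Finset.mem_coe, hs]
    exact SS_eval_const κt κr _ T (hR2 a ha)) hinj
  rw [Multiset.toFinset_card_of_nodup hnd, ← (IsAlgClosed.splits p).natDegree_eq_card_roots, hd,
    hcard, hr] at h7
  omega

/-- Algebraic elements over `K` come from `k`. -/
theorem alg_mem [IsAlgClosed k] [Algebra K E] (j : PowerSeries k →+* E)
    (hjK : ∀ a : K, j (PowerSeries.C (algebraMap K k a)) = algebraMap K E a) (x : E)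
    (hx : IsAlgebraic K x) : x ∈ Set.range j := by
  obtain ⟨q, hq, hqx⟩ := hx
  have h1 : q.map (algebraMap K k) ≠ 0 := (Polynomial.map_ne_zero_iff (algebraMap K k).injective).2 hq
  have h2 : ((q.map (algebraMap K k)).map (j.comp PowerSeries.C)).eval x = 0 := by
    rw [Polynomial.map_map, ← hqx, aeval_def, eval_map]
    congr 1
    ext a
    exact hjK a
  have h3 : x ∈ ((q.map (algebraMap K k)).map (j.comp PowerSeries.C)).roots := by
    rw [mem_roots ((Polynomial.map_ne_zero_iff (j.comp PowerSeries.C).injective).2 h1)]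
    exact h2
  rw [(IsAlgClosed.splits (q.map (algebraMap K k))).roots_map (j.comp PowerSeries.C),
    Multiset.mem_map] at h3
  obtain ⟨a, -, ha⟩ := h3
  exact ⟨PowerSeries.C a, ha⟩

end main

end Pool.Agent.K3h79.IGP
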