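import Mathlib
import Pool.Agent.K3h79.IGP.Sml3

/-!
IGP brick V (owner helper17): an automorphism of small support from a degenerating family.
`t_sml` is `St_sml` with the additional hypothesis `κr ≠ 0`.
-/

set_option autoImplicit false
set_option linter.unusedSectionVars false
set_option linter.unusedSimpArgs false

namespace Pool.Agent.K3h79.IGP

open Polynomial Pool.Agent.K3h17 Pool.Agent.Y793

/-- SML, with the additional hypothesis `κr ≠ 0`. -/
theorem t_sml :
  ∀ (K F k E Ω : Type) [Field K] [CharZero K] [Field F] [IsAlgClosed F] [Algebra K F] [Field k]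
    [IsAlgClosed k] [Algebra F k] [Algebra K k] [IsScalarTower K F k] [Field E] [IsAlgClosed E]
    [Algebra K E] (j : PowerSeries k →+* E), Function.Injective j →
    (∀ a : K, j (PowerSeries.C (algebraMap K k a)) = algebraMap K E a) →
    (∀ z : E, ∃ p : Polynomial (PowerSeries k), p ≠ 0 ∧ (p.map j).eval z = 0) →
    ∀ [Field Ω] [Algebra (RatFunc K) Ω] [Algebra K Ω] [IsScalarTower K (RatFunc K) Ω]
    [FiniteDimensional (RatFunc K) Ω] [IsGalois (RatFunc K) Ω]
    (P : Subgroup (Ω ≃ₐ[RatFunc K] Ω)) (κt : K[X]) (κr : F[X]) (T : k) (l : ℕ),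
    κt.natDegree = l + 2 → κr.natDegree = l → κr ≠ 0 → Transcendental F T →
    ∀ (n : ℕ) (Φ : Fin n → (Ω →ₐ[K] E)),
    (∀ i, (adr K ((κr.map (j.comp (PowerSeries.C.comp (algebraMap F k))) +
      C (j PowerSeries.X) * κt.map (algebraMap K E)) ^ 2)).eval (Φ i (xx K Ω)) =
        j (PowerSeries.C T)) →
    (∀ i i', ∀ γ ∈ P, (∀ z, Φ i z = Φ i' (γ z)) → i = i') →
    (∀ Φ' : Ω →ₐ[K] E, (adr K ((κr.map (j.comp (PowerSeries.C.comp (algebraMap F k))) +
      C (j PowerSeries.X) * κt.map (algebraMap K E)) ^ 2)).eval (Φ' (xx K Ω)) =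
        j (PowerSeries.C T) → ∃ i, ∃ γ ∈ P, ∀ z, Φ' z = Φ i (γ z)) →
    ∃ (σ : E ≃+* E) (π : Equiv.Perm (Fin n)) (γ : Fin n → P), (∀ f, σ (j f) = j f) ∧
      (∀ i z, σ (Φ i z) = Φ (π i) ((γ i : Ω ≃ₐ[RatFunc K] Ω) z)) ∧ π ≠ 1 ∧
      {i | π i ≠ i ∨ γ i ≠ 1}.ncard ≤ 4 * P.index := by
  classical
  intro K F k E Ω _ _ _ _ _ _ _ _ _ _ _ _ _ j hj hjK hjalg _ _ _ _ _ _ P κt κr T l ht hr hκ hT
    n Φ hΦ hinj hcomp
  have hcF : CharZero F := charZero_of_injective_algebraMap (algebraMap K F).injective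
  have hck : CharZero k := charZero_of_injective_algebraMap (algebraMap K k).injective
  let jA : PowerSeries k →ₐ[K] E := { j with
    commutes' := fun a => by
      rw [PowerSeries.algebraMap_apply]
      exact hjK a }
  have hjA : (jA : PowerSeries k →+* E) = j := rfl
  have hSE : adr K ((κr.map (j.comp (PowerSeries.C.comp (algebraMap F k))) +
      C (j PowerSeries.X) * κt.map (algebraMap K E)) ^ 2) = (SS (k := k) κt κr).map j := by
    have h1 := adr_map jA ((AA (k := k) κt κr) ^ 2)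
    rw [hjA] at h1
    rw [SS, h1, Polynomial.map_pow]
    congr 2
    rw [AA, Polynomial.map_add, Polynomial.map_mul, Polynomial.map_map, Polynomial.map_map, map_C]
    congr 3
    ext a
    exact (jA.commutes a).symm
  rw [hSE] at hΦ hcomp
  -- the field of fractions
  let ι : FractionRing (PowerSeries k) →+* E := IsFractionRing.lift hj
  have hι : ∀ f, ι (algebraMap (PowerSeries k) _ f) = j f := fun f =>
    IsFractionRing.lift_algebraMap hj f
  let _ : Algebra (FractionRing (PowerSeries k)) E := ι.toAlgebra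
  have hιm : ∀ f, algebraMap (FractionRing (PowerSeries k)) E f = ι f := fun _ => rfl
  obtain ⟨x₁, hx₁, hx₁'⟩ := exists_root j hj κt κr l ht hr hκ T hT ι hι
  have hcL : CharZero (FractionRing (PowerSeries k)) :=
    charZero_of_injective_algebraMap (R := k)
      ((algebraMap (PowerSeries k) (FractionRing (PowerSeries k))).comp PowerSeries.C).injective
  -- an automorphism moving `x₁`
  obtain ⟨τ, hτ⟩ : ∃ τ : E ≃ₐ[FractionRing (PowerSeries k)] E, τ x₁ ≠ x₁ := by
    by_contra hcon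
    push Not at hcon
    refine hx₁' (Y241.WR.fixed x₁ ?_ hcon)
    obtain ⟨p, hp, hpx⟩ := hjalg x₁
    refine ⟨p.map (algebraMap (PowerSeries k) (FractionRing (PowerSeries k))),
      (Polynomial.map_ne_zero_iff (IsFractionRing.injective _ _)).2 hp, ?_⟩
    rw [aeval_def, eval₂_map, ← hpx, eval_map]
    congr 1
    ext f
    exact hι f
  let σ : E ≃+* E := τ
  have hσj : ∀ f, σ (j f) = j f := fun f => by
    rw [← hι]
    exact τ.commutes _
  let σK : E ≃ₐ[K] E := AlgEquiv.ofRingEquiv (f := σ) (fun a => by rw [← hjK a]; exact hσj _)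
  have hσK : ∀ z, σK z = σ z := fun _ => rfl
  -- the permutation
  have hσS : ∀ x : E, ((SS (k := k) κt κr).map j).eval x = j (PowerSeries.C T) →
      ((SS (k := k) κt κr).map j).eval (σ x) = j (PowerSeries.C T) := by
    intro x hx
    have h1 := congrArg σ hx
    rw [hσj] at h1
    rw [← h1, eval_map, eval_map]
    have h2 : σ (eval₂ j x (SS (k := k) κt κr)) =
        eval₂ ((σ : E →+* E).comp j) (σ x) (SS (k := k) κt κr) :=
      hom_eval₂ _ _ (σ : E →+* E) _
    rw [h2]
    congr 1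
    ext f
    exact (hσj f).symm
  have hex : ∀ i, ∃ i', ∃ γ : P, ∀ z, σ (Φ i z) = Φ i' ((γ : Ω ≃ₐ[RatFunc K] Ω) z) := by
    intro i
    obtain ⟨i', γ, hγ, h⟩ := hcomp ((σK : E →ₐ[K] E).comp (Φ i)) (hσS _ (hΦ i))
    exact ⟨i', ⟨γ, hγ⟩, h⟩
  choose f γ hf using hex
  have hfinj : Function.Injective f := by
    intro i i' hii
    have hmem : ((γ i')⁻¹ * γ i : P).1 ∈ P := ((γ i')⁻¹ * γ i : P).2
    refine hinj i i' _ hmem fun z => ?_
    apply σ.injective
    rw [hf i, hf i', hii]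
    congr 1
    have h1 : ((γ i' : P) : Ω ≃ₐ[RatFunc K] Ω) * ((γ i')⁻¹ * γ i : P).1 = (γ i : P) := by
      rw [← Subgroup.coe_mul, mul_inv_cancel_left]
    rw [← h1, AlgEquiv.mul_apply]
  let π : Equiv.Perm (Fin n) := Equiv.ofBijective f (Finite.injective_iff_bijective.1 hfinj)
  have hπ : ∀ i, π i = f i := fun _ => rfl
  refine ⟨σ, π, γ, hσj, fun i z => by rw [hπ]; exact hf i z, ?_, ?_⟩
  · -- `π ≠ 1`
    have hx₁K : Transcendental K x₁ := fun h => by
      obtain ⟨g, hg⟩ := alg_mem j hjK x₁ h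
      exact hx₁' ⟨algebraMap _ _ g, by rw [hι, hg]⟩
    obtain ⟨Φ', hΦ'⟩ := emb (K := K) (Ω := Ω) (N := E) x₁ hx₁K
    obtain ⟨i, g, hg, h⟩ := hcomp Φ' (by rw [hΦ']; exact hx₁)
    have h1 : Φ i (xx K Ω) = x₁ := by
      rw [← hΦ', h]
      congr 1
      exact (g.commutes _).symm
    intro h2
    apply hτ
    have h3 := hf i (xx K Ω)
    have h4 : f i = i := by rw [← hπ, h2]; rfl
    have h5 : ((γ i : P) : Ω ≃ₐ[RatFunc K] Ω) (xx K Ω) = xx K Ω :=
      ((γ i : P) : Ω ≃ₐ[RatFunc K] Ω).commutes _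
    rw [h1, h4, h5, h1] at h3
    exact h3
  · -- the support
    obtain ⟨s, hcard, hs⟩ := card_roots (K := K) κr hκ T hT
    have hlift : ∀ a : s, ∃ Ψ : Ω →ₐ[K] PowerSeries k,
        (SS (k := k) κt κr).eval (Ψ (xx K Ω)) = PowerSeries.C T ∧
        PowerSeries.constantCoeff (Ψ (xx K Ω)) = a := fun a =>
      lifts κt κr hκ T a hT ((hs a).1 a.2)
    choose Ψ hΨ1 hΨ2 using hlift
    set p := (SS (k := k) κt κr).map j - C (j (PowerSeries.C T)) with hp
    have hd : p.natDegree = 2 * l + 5 := SE_natDegree j hj κt κr l ht hr _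
    have hp0 : p ≠ 0 := by
      intro h0
      rw [h0, natDegree_zero] at hd
      omega
    have hroot : ∀ a, a ∈ p.roots.toFinset ↔
        ((SS (k := k) κt κr).map j).eval a = j (PowerSeries.C T) := by
      intro a
      rw [Multiset.mem_toFinset, mem_roots hp0, IsRoot, hp, eval_sub, eval_C, sub_eq_zero]
    let G : Finset E := s.attach.image (fun a => j (Ψ a (xx K Ω)))
    have hGcard : G.card = 2 * l + 1 := by
      rw [Finset.card_image_of_injective, Finset.card_attach, hcard, hr]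
      intro a b hab
      apply Subtype.ext
      rw [← hΨ2 a, ← hΨ2 b, hj hab]
    have hGsub : G ⊆ p.roots.toFinset := by
      intro x hx
      obtain ⟨a, -, rfl⟩ := Finset.mem_image.1 hx
      rw [hroot, eval_map_apply, hΨ1]
    have hBcard : (p.roots.toFinset \ G).card ≤ 4 := by
      rw [Finset.card_sdiff_of_subset hGsub, hGcard]
      have := (Multiset.toFinset_card_le p.roots).trans (card_roots' p)
      omega
    have hgood : ∀ i, Φ i (xx K Ω) ∈ G → π i = i ∧ γ i = 1 := by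
      intro i hi
      obtain ⟨a, -, ha⟩ := Finset.mem_image.1 hi
      obtain ⟨g, hg⟩ := conj (jA.comp (Ψ a)) (Φ i) ha
      have h1 : ∀ z, σ (Φ i z) = Φ i z := fun z => by
        rw [hg]
        exact hσj _
      have h2 : i = f i := hinj i (f i) (γ i) (γ i).2 fun z => by rw [← hf, h1]
      refine ⟨h2.symm, ?_⟩
      apply Subtype.ext
      apply AlgEquiv.ext
      intro z
      have h3 := hf i z
      rw [h1, ← h2] at h3
      exact ((Φ i).injective h3).symm
    have hsub : {i | π i ≠ i ∨ γ i ≠ 1} ⊆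
        ⋃ a ∈ p.roots.toFinset \ G, {i | Φ i (xx K Ω) = a} := by
      intro i hi
      rw [Set.mem_iUnion₂]
      refine ⟨Φ i (xx K Ω), ?_, rfl⟩
      rw [Finset.mem_sdiff, hroot]
      refine ⟨hΦ i, fun hG => ?_⟩
      obtain ⟨h1, h2⟩ := hgood i hG
      rcases hi with h | h
      · exact h h1
      · exact h h2
    calc {i | π i ≠ i ∨ γ i ≠ 1}.ncard
        ≤ (⋃ a ∈ p.roots.toFinset \ G, {i | Φ i (xx K Ω) = a}).ncard :=
          Set.ncard_le_ncard hsub (Set.toFinite _)
      _ ≤ ∑ a ∈ p.roots.toFinset \ G, {i | Φ i (xx K Ω) = a}.ncard :=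
          Finset.set_ncard_biUnion_le _ _
      _ ≤ ∑ _a ∈ p.roots.toFinset \ G, P.index :=
          Finset.sum_le_sum fun a _ => fiber P Φ hinj a
      _ = (p.roots.toFinset \ G).card * P.index := by rw [Finset.sum_const, smul_eq_mul]
      _ ≤ 4 * P.index := Nat.mul_le_mul_right _ hBcard

end Pool.Agent.K3h79.IGP
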